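import Pool.Agent.Run7.h536.CE14

set_option autoImplicit false

/-!
# Prime triples `p`, `p + a`, `p + b` whose differences are values of ARBITRARY polynomials in ARBITRARY residue classes
modulo almost all large `q`

The Hardy-Littlewood conjecture gives the number of primes `p` with `p + a`, `p + b` prime for all fixed `a`, `b`, in
particular for `(a, b) = (2, 6)` and `(4, 6)`. Here `a = c₀ + h₀`, `b = c₁ + h₁`, where `h₀`, `h₁` come from the following thin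
families of integers up to `B N` and `c₀`, `c₁` are ALL integers up to a power of `log N` (simultaneously).

For `l = 0, 1` let `q` run through a set `T l` of at least `Q / log ^ C N` integers up to `Q = Q l`, where `Q` and `X = X l` are
of polynomially comparable size and `(Q X) ^ (d l)` is `N` up to powers of `log N`; for every `q` let a polynomial `F_q` of
degree `d l ≥ 2` with the leading coefficient `κ l` and an integer `ρ_q` be given in an ARBITRARY way (they depend on `q`, as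
if chosen by an adversary); the family consists of the numbers `h = F_q(q t + ρ_q)`, `1 ≤ t ≤ X`, the values of `F_q` in a
residue class modulo `q`. It has about `N ^ (1 / d l)` members. (For example `h = (q t + ρ_q) ^ 2 + a_q`.)

Proof. The additive energy of these families is nearly minimal (`Pool.Agent.Run7.h536.CE1` to `CE4` and `CE12.ap_energy`,
new); for families of nearly minimal energy the prime values of systems of linear forms are counted in the starting files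
(`TH935.TF8`, `TF9`, sieve, circle method and the theorem of Siegel and Walfisz); `CE13`, `CE14` combine both.
-/

namespace Pool.Agent.Results.MP_c0d11e_nt.ShiftsInAllClasses

open Finset Filter Topology Polynomial

/-- The number of residue classes of `n` modulo `p` for which `n (α₀ n + β₀) (α₁ n + β₁) ≡ 0 (mod p)`. -/
def omega (α β : Fin 2 → ℤ) (p : ℕ) : ℕ :=
  ((range p).filter (fun n : ℕ => (p : ℤ) ∣ (n : ℤ) * ∏ i, (α i * (n : ℤ) + β i))).card

/-- The product over the primes `p ≤ z` of `(1 - omega(p) / p) (1 - 1 / p) ^ (-3)`. For `α = (1, 1)` and `β = (2, 6)` or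
`(4, 6)` these are the partial products of the constant `D` of the problem. -/
noncomputable def partialConstant (α β : Fin 2 → ℤ) (z : ℕ) : ℝ :=
  ∏ p ∈ (Icc 1 z).filter Nat.Prime, (1 - (omega α β p : ℝ) / p) / (1 - 1 / (p : ℝ)) ^ 3

/-- The number of primes `p` with `y₁ < p ≤ y₂` for which `|α₀ p + β₀|` and `|α₁ p + β₁|` are prime. -/
def count (α β : Fin 2 → ℤ) (y₁ y₂ : ℕ) : ℕ :=
  ((Ioc y₁ y₂).filter (fun p : ℕ => p.Prime ∧ ∀ i, (α i * (p : ℤ) + β i).natAbs.Prime)).card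

/-- No two of the forms `n`, `α₀ n + β₀`, `α₁ n + β₁` are equal up to sign, they are not constant, and their product has no
fixed prime divisor. -/
def Admissible (α β : Fin 2 → ℤ) : Prop :=
  (∀ i, α i ≠ 0) ∧ (∀ i, ¬ (β i = 0 ∧ (α i = 1 ∨ α i = -1))) ∧
  (∀ i j, i ≠ j → ¬ (α i = α j ∧ β i = β j) ∧ ¬ (α i = -α j ∧ β i = -β j)) ∧
  (∀ p : ℕ, p.Prime → ∃ n : ℤ, ¬ (p : ℤ) ∣ n * ∏ i, (α i * n + β i))

/-- The Hardy-Littlewood formula for all the triples `p`, `α₀ p + h₀ + c₀`, `α₁ p + h₁ + c₁` with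
`|α_i|, |c_i| ≤ log ^ D N` (for `α = (1, 1)`: `p`, `p + c₀ + h₀`, `p + c₁ + h₁`): whenever the triple is admissible, the
infinite product converges to a positive `S`, and for all `y₁ < y₂ ≤ B N` with `y₂ - y₁ ≥ N / log ^ A N` the number of
triples of primes with `y₁ < p ≤ y₂` is `S (y₂ - y₁) / log ^ 3 N` with a relative error of at most `ε`. -/
def HardyLittlewood (ε : ℝ) (A B D N : ℕ) (h : Fin 2 → ℤ) : Prop :=
  ∀ c : Fin 2 → ℤ, (∀ i, (|c i| : ℝ) ≤ Real.log N ^ D) →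
  ∀ α : Fin 2 → ℤ, (∀ i, (|α i| : ℝ) ≤ Real.log N ^ D) → Admissible α (fun i => h i + c i) →
    ∃ S : ℝ, 0 < S ∧ Tendsto (partialConstant α (fun i => h i + c i)) atTop (𝓝 S) ∧
      ∀ y₁ y₂ : ℕ, y₁ < y₂ → y₂ ≤ B * N → (N : ℝ) / Real.log N ^ A ≤ (y₂ : ℝ) - y₁ →
        |(count α (fun i => h i + c i) y₁ y₂ : ℝ) - S * ((y₂ : ℝ) - y₁) / Real.log N ^ 3| ≤
          ε * (S * ((y₂ : ℝ) - y₁) / Real.log N ^ 3)

/-- The difference `h_l = F_q(q t + ρ_q)`, for `q ∈ T l` and `1 ≤ t ≤ X l`. -/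
noncomputable def shift {T : Fin 2 → Finset ℕ} (X : Fin 2 → ℕ) (F : ∀ l, {q : ℕ // q ∈ T l} → ℤ[X])
    (ρ : ∀ l, {q : ℕ // q ∈ T l} → ℤ) (l : Fin 2) (x : {q : ℕ // q ∈ T l} × {t : ℕ // t ∈ (Icc 1 (X l) : Finset ℕ)}) : ℤ :=
  (F l x.1).eval (((x.1.1 : ℕ) : ℤ) * ((x.2.1 : ℕ) : ℤ) + ρ l x.1)

open Pool.Agent.TH935.TF

lemma dvd_prod (α β : Fin 2 → ℤ) (p : ℕ) (hp : p.Prime) (n : ℤ) :
    (p : ℤ) ∣ n * ∏ i, (α i * n + β i) ↔ ∃ i, (p : ℤ) ∣ consA α i * n + consB β i := by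
  have hpi := Nat.prime_iff_prime_int.1 hp
  have h := hpi.dvd_finsetProd_iff (S := univ) (fun i => α i * n + β i)
  have e : (∃ i, (p : ℤ) ∣ consA α i * n + consB β i) ↔ (p : ℤ) ∣ n ∨ ∃ i, (p : ℤ) ∣ α i * n + β i := by
    rw [Fin.exists_fin_succ]
    simp only [consA_zero, consB_zero, consA_succ, consB_succ, one_mul, add_zero]
  rw [hpi.dvd_mul, h, e]
  simp only [mem_univ, true_and]

lemma omega_eq (α β : Fin 2 → ℤ) (p : ℕ) (hp : p.Prime) : omega α β p = om (consA α) (consB β) p := by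
  unfold omega om
  congr 1
  apply filter_congr
  intro n _
  exact dvd_prod α β p hp n

lemma euler_eq (α β : Fin 2 → ℤ) : partialConstant α β = fun z => Gz (om (consA α) (consB β)) 3 z := by
  funext z
  unfold partialConstant Gz Fq Pool.Agent.H373R2.T7.pz
  apply prod_congr rfl
  intro p hp
  rw [omega_eq α β p (mem_filter.1 hp).2]

lemma count_eq (α β : Fin 2 → ℤ) (y₁ y₂ : ℕ) : count α β y₁ y₂ = cn (consA α) (consB β) y₁ y₂ := by
  unfold count cn
  congr 1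
  apply filter_congr
  intro n _
  have e : (∀ i, (consA α i * (n : ℤ) + consB β i).natAbs.Prime) ↔ n.Prime ∧ ∀ i, (α i * (n : ℤ) + β i).natAbs.Prime := by
    rw [Fin.forall_fin_succ]
    simp only [consA_zero, consB_zero, consA_succ, consB_succ, one_mul, add_zero, Int.natAbs_natCast]
  exact e.symm

lemma adm_of (α β : Fin 2 → ℤ) (h : Admissible α β) : Adm (consA α) (consB β) := by
  intro p hp
  obtain ⟨n, hn⟩ := h.2.2.2 p hp
  refine ⟨n, fun i hi => hn ?_⟩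
  exact (dvd_prod α β p hp n).2 ⟨i, hi⟩

lemma dist_of (α β : Fin 2 → ℤ) (h : Admissible α β) : Dist (consA α) (consB β) := by
  obtain ⟨_, h2, h3, _⟩ := h
  intro i j
  refine Fin.cases ?_ (fun i => ?_) i <;> refine Fin.cases ?_ (fun j => ?_) j <;> intro hij
  · exact absurd rfl hij
  · rw [consA_zero, consB_zero, consA_succ, consB_succ]
    exact ⟨fun hh => h2 j ⟨hh.2.symm, Or.inl hh.1.symm⟩, fun hh => h2 j ⟨by omega, Or.inr (by omega)⟩⟩
  · rw [consA_zero, consB_zero, consA_succ, consB_succ]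
    exact ⟨fun hh => h2 i ⟨hh.2, Or.inl hh.1⟩, fun hh => h2 i ⟨by omega, Or.inr (by omega)⟩⟩
  · rw [consA_succ, consB_succ, consA_succ, consB_succ]
    exact h3 i j (fun hh => hij (congrArg Fin.succ hh))

lemma hl_of (ε : ℝ) (A B D N : ℕ) (h : Fin 2 → ℤ)
    (hH : ∀ c : Fin 2 → ℤ, (∀ i, (|c i| : ℝ) ≤ Real.log N ^ D) → HW consA consB ε A B D N (fun i => h i + c i)) :
    HardyLittlewood ε A B D N h := by
  intro c hc α hα hadm
  obtain ⟨S, hS0, hSt, hS⟩ := hH c hc α hadm.1 (fun i => by rw [Nat.cast_natAbs, Int.cast_abs]; exact hα i)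
    (adm_of α _ hadm) (dist_of α _ hadm)
  refine ⟨S, hS0, by rw [euler_eq]; exact hSt, fun y₁ y₂ h12 hy2 hΔ => ?_⟩
  rw [count_eq]
  exact hS y₁ y₂ h12.le hy2 hΔ

open Classical in
/-- Fix `d l ≥ 2`, `r`, `A`, `B`, `C`, `D`, `J`, `U` and `ε > 0`. For all large `N` and `l = 0, 1` let `Q l ≤ (X l) ^ r` and
`X l ≤ (Q l) ^ r`, let `(Q l X l) ^ (d l)` be between `N / log ^ J N` and `N log ^ J N`, let `T l` be ANY set of at least
`Q l / log ^ C N` positive integers up to `Q l`, `κ l ≠ 0`; for `q ∈ T l` let `F_(l,q)` be ARBITRARY polynomials with integer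
coefficients of degree at most `d l` with the coefficient `κ l` at `x ^ (d l)`, and `ρ_(l,q)` ARBITRARY integers, such that
`|F_(l,q)(q t + ρ_(l,q))| ≤ B N` for `1 ≤ t ≤ X l`.

Then for all but at most `#(T 0) (X 0) #(T 1) (X 1) / log ^ U N` of the `((q₀, t₀), (q₁, t₁))` the numbers
`h_l = F_(l,q_l)(q_l t_l + ρ_(l,q_l))` have the property `HardyLittlewood`: for ALL integers `|c₀|, |c₁| ≤ log ^ D N` (in
particular for `(c₀, c₁) = (2, 6)` and `(4, 6)`) the triples `p`, `p + c₀ + h₀`, `p + c₁ + h₁`, and more generally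
`p`, `α₀ p + c₀ + h₀`, `α₁ p + c₁ + h₁` with `|α_i| ≤ log ^ D N`, satisfy the Hardy-Littlewood formula in all the windows
`y₁ < p ≤ y₂ ≤ B N` of length at least `N / log ^ A N`, with a relative error of at most `ε`. -/
theorem result (d : Fin 2 → ℕ) (hd : ∀ l, 2 ≤ d l) (r A B C D J U : ℕ) (hr : 1 ≤ r) (ε : ℝ) (hε : 0 < ε) :
    ∃ N₀ : ℕ, ∀ N : ℕ, N₀ ≤ N → ∀ (Q X : Fin 2 → ℕ) (T : Fin 2 → Finset ℕ) (κ : Fin 2 → ℤ),
    (∀ l, Q l ≤ X l ^ r) → (∀ l, X l ≤ Q l ^ r) → (∀ l, T l ⊆ Icc 1 (Q l)) →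
    (∀ l, (Q l : ℝ) ≤ Real.log N ^ C * (T l).card) → (∀ l, κ l ≠ 0) →
    (∀ l, (N : ℝ) ≤ Real.log N ^ J * (((Q l * X l) ^ d l : ℕ) : ℝ)) → (∀ l, (((Q l * X l) ^ d l : ℕ) : ℝ) ≤ Real.log N ^ J * N) →
    ∀ (F : ∀ l, {q : ℕ // q ∈ T l} → ℤ[X]) (ρ : ∀ l, {q : ℕ // q ∈ T l} → ℤ),
    (∀ l q, (F l q).natDegree ≤ d l) → (∀ l q, (F l q).coeff (d l) = κ l) →
    (∀ l x, |shift X F ρ l x| ≤ B * N) →
    ((univ.filter (fun s : ∀ l, {q : ℕ // q ∈ T l} × {t : ℕ // t ∈ (Icc 1 (X l) : Finset ℕ)} =>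
        ¬ HardyLittlewood ε A B D N (fun l => shift X F ρ l (s l)))).card : ℝ) ≤
      (∏ l, ((T l).card : ℝ) * X l) / Real.log N ^ U := by
  obtain ⟨N₀, h0⟩ := Pool.Agent.Run7.h536.CE.sys_ap (sys_lam 2 (by norm_num)) (by norm_num) d hd r A B C D J U hr ε hε
  refine ⟨N₀, fun N hN Q X T κ hQ1 hQ2 hT hTQ hκ hN1 hN2 F ρ hF1 hF2 hF3 => ?_⟩
  apply h0 N hN Q X T κ hQ1 hQ2 hT hTQ hκ hN1 hN2 F ρ hF1 hF2 (fun l q t ht => hF3 l (q, ⟨t, ht⟩))
  intro s hs hH
  exact (mem_filter.1 hs).2 (hl_of ε A B D N _ hH)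

end Pool.Agent.Results.MP_c0d11e_nt.ShiftsInAllClasses
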